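import Mathlib

/-!
Partitions into families without relations with coefficients `-1, 0, 1` in abelian groups of
bounded exponent.
-/

open Finset

open scoped ArithmeticFunction.Omega

namespace Pool.Agent.Helper97.BddExp

/-! ### A union theorem for submodular functions (after Rado, Edmonds, Horn) -/

section Union

variable {ι C : Type*} [DecidableEq ι] [DecidableEq C] [Fintype C] [Nonempty C]

/-- If `|X| ≤ ∑ c, r c X` for all `X ⊆ A`, the set `A` can be coloured by `C` so that
`|X| ≤ r c X` for each set `X` of elements of colour `c`. -/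
theorem union_lists (A : Finset ι) (r : C → Finset ι → ℕ) (h0 : ∀ c, r c ∅ = 0)
    (hmono : ∀ c, ∀ X ⊆ A, ∀ Y ⊆ X, r c Y ≤ r c X)
    (hsub : ∀ c, ∀ X ⊆ A, ∀ Y ⊆ A, r c (X ∪ Y) + r c (X ∩ Y) ≤ r c X + r c Y) :
    ∀ (s : ℕ) (L : ι → Finset C), (∑ i ∈ A, (L i).card) = s →
      (∀ X ⊆ A, X.card ≤ ∑ c, r c (X.filter (fun i => c ∈ L i))) →
      ∃ f : ι → C, ∀ c, ∀ X ⊆ A, (∀ i ∈ X, f i = c) → X.card ≤ r c X := by
  intro s
  induction s using Nat.strong_induction_on with
  | _ s ih =>
    intro L hL hX
    by_cases hbig : ∃ i ∈ A, 2 ≤ (L i).card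
    · obtain ⟨i, hiA, hi⟩ := hbig
      obtain ⟨c₁, hc₁, c₂, hc₂, hne⟩ := Finset.one_lt_card.1 (by omega : 1 < (L i).card)
      -- the lists with one colour removed at `i`
      set L' : C → ι → Finset C := fun c j => if j = i then (L i).erase c else L j with hL'
      have hsum : ∀ c ∈ L i, (∑ j ∈ A, (L' c j).card) < s := by
        intro c hc
        rw [← hL]
        refine Finset.sum_lt_sum (fun j _ => ?_) ⟨i, hiA, ?_⟩
        · by_cases hj : j = i
          · subst hj
            simp only [hL', if_true]
            exact Finset.card_le_card (Finset.erase_subset _ _)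
          · simp only [hL', if_neg hj]
            exact le_refl _
        · simp only [hL', if_true]
          exact Finset.card_erase_lt_of_mem hc
      by_contra hcon
      have hbad : ∀ c ∈ L i, ∃ X ⊆ A,
          (∑ c', r c' (X.filter (fun j => c' ∈ L' c j))) < X.card := by
        intro c hc
        by_contra hno
        push Not at hno
        exact hcon (ih _ (hsum c hc) (L' c) rfl hno)
      obtain ⟨X, hXA, hXlt⟩ := hbad c₁ hc₁
      obtain ⟨Y, hYA, hYlt⟩ := hbad c₂ hc₂
      have hiX : i ∈ X := by
        by_contra hi'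
        have h := hX X hXA
        have he : ∀ c', X.filter (fun j => c' ∈ L' c₁ j) = X.filter (fun j => c' ∈ L j) := by
          intro c'
          refine Finset.filter_congr (fun j hj => ?_)
          have hj' : j ≠ i := fun e => hi' (e ▸ hj)
          simp only [hL', if_neg hj']
        simp only [he] at hXlt
        omega
      have hiY : i ∈ Y := by
        by_contra hi'
        have h := hX Y hYA
        have he : ∀ c', Y.filter (fun j => c' ∈ L' c₂ j) = Y.filter (fun j => c' ∈ L j) := by
          intro c'
          refine Finset.filter_congr (fun j hj => ?_)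
          have hj' : j ≠ i := fun e => hi' (e ▸ hj)
          simp only [hL', if_neg hj']
        simp only [he] at hYlt
        omega
      -- the union and the intersection
      have hU := hX (X ∪ Y) (Finset.union_subset hXA hYA)
      have hI := hX ((X ∩ Y).erase i)
        ((Finset.erase_subset _ _).trans (Finset.inter_subset_left.trans hXA))
      have hcard : (X ∪ Y).card + (X ∩ Y).card = X.card + Y.card :=
        Finset.card_union_add_card_inter X Y
      have hce : ((X ∩ Y).erase i).card + 1 = (X ∩ Y).card :=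
        Finset.card_erase_add_one (Finset.mem_inter.2 ⟨hiX, hiY⟩)
      have hterm : ∀ c', r c' ((X ∪ Y).filter (fun j => c' ∈ L j)) +
          r c' (((X ∩ Y).erase i).filter (fun j => c' ∈ L j)) ≤
          r c' (X.filter (fun j => c' ∈ L' c₁ j)) + r c' (Y.filter (fun j => c' ∈ L' c₂ j)) := by
        intro c'
        have hXf : X.filter (fun j => c' ∈ L' c₁ j) ⊆ A := (Finset.filter_subset _ _).trans hXA
        have hYf : Y.filter (fun j => c' ∈ L' c₂ j) ⊆ A := (Finset.filter_subset _ _).trans hYA
        have hs := hsub c' _ hXf _ hYf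
        have hUe : (X ∪ Y).filter (fun j => c' ∈ L j) ⊆
            X.filter (fun j => c' ∈ L' c₁ j) ∪ Y.filter (fun j => c' ∈ L' c₂ j) := by
          intro j hj
          obtain ⟨hj1, hj2⟩ := Finset.mem_filter.1 hj
          rw [Finset.mem_union, Finset.mem_filter, Finset.mem_filter]
          by_cases hji : j = i
          · subst hji
            by_cases hcc : c' = c₁
            · right
              refine ⟨hiY, ?_⟩
              simp only [hL', if_true]
              exact Finset.mem_erase.2 ⟨fun e => hne (hcc.symm.trans e), hj2⟩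
            · left
              refine ⟨hiX, ?_⟩
              simp only [hL', if_true]
              exact Finset.mem_erase.2 ⟨hcc, hj2⟩
          · rcases Finset.mem_union.1 hj1 with h | h
            · left
              refine ⟨h, ?_⟩
              simp only [hL', if_neg hji]
              exact hj2
            · right
              refine ⟨h, ?_⟩
              simp only [hL', if_neg hji]
              exact hj2
        have hIe : ((X ∩ Y).erase i).filter (fun j => c' ∈ L j) ⊆
            X.filter (fun j => c' ∈ L' c₁ j) ∩ Y.filter (fun j => c' ∈ L' c₂ j) := by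
          intro j hj
          obtain ⟨hj1, hj2⟩ := Finset.mem_filter.1 hj
          obtain ⟨hji, hj3⟩ := Finset.mem_erase.1 hj1
          obtain ⟨hjX, hjY⟩ := Finset.mem_inter.1 hj3
          rw [Finset.mem_inter, Finset.mem_filter, Finset.mem_filter]
          simp only [hL', if_neg hji]
          exact ⟨⟨hjX, hj2⟩, ⟨hjY, hj2⟩⟩
        have h1 := hmono c' _ (Finset.union_subset hXf hYf) _ hUe
        have h2 := hmono c' _ (Finset.inter_subset_left.trans hXf) _ hIe
        omega
      have hsumle := Finset.sum_le_sum (fun c' (_ : c' ∈ Finset.univ) => hterm c')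
      rw [Finset.sum_add_distrib, Finset.sum_add_distrib] at hsumle
      omega
    · push Not at hbig
      have hone : ∀ i ∈ A, (L i).card = 1 := by
        intro i hi
        have h1 := hbig i hi
        have h2 := hX {i} (Finset.singleton_subset_iff.2 hi)
        rw [Finset.card_singleton] at h2
        have h3 : (L i).Nonempty := by
          by_contra hemp
          rw [Finset.not_nonempty_iff_eq_empty] at hemp
          have : ∑ c, r c (({i} : Finset ι).filter (fun i => c ∈ L i)) = 0 := by
            refine Finset.sum_eq_zero (fun c _ => ?_)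
            have : ({i} : Finset ι).filter (fun i => c ∈ L i) = ∅ := by
              refine Finset.filter_eq_empty_iff.2 (fun j hj => ?_)
              rw [Finset.mem_singleton.1 hj, hemp]
              exact Finset.notMem_empty _
            rw [this, h0]
          omega
        have h4 := Finset.card_pos.2 h3
        omega
      have hC : Nonempty C := inferInstance
      have hex : ∀ i, ∃ c, i ∈ A → L i = {c} := by
        intro i
        by_cases hi : i ∈ A
        · obtain ⟨c, hc⟩ := Finset.card_eq_one.1 (hone i hi)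
          exact ⟨c, fun _ => hc⟩
        · exact ⟨hC.some, fun h => absurd h hi⟩
      choose f hf using hex
      refine ⟨f, fun c X hXA hXc => ?_⟩
      have h := hX X hXA
      have hsplit : ∑ c', r c' (X.filter (fun i => c' ∈ L i)) = r c X := by
        rw [Finset.sum_eq_single c]
        · congr 1
          refine Finset.filter_true_of_mem (fun i hi => ?_)
          rw [hf i (hXA hi), hXc i hi]
          exact Finset.mem_singleton_self _
        · intro c' _ hcc
          have : X.filter (fun i => c' ∈ L i) = ∅ := by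
            refine Finset.filter_eq_empty_iff.2 (fun j hj => ?_)
            rw [hf j (hXA hj), hXc j hj, Finset.mem_singleton]
            exact hcc
          rw [this, h0]
        · intro h
          exact absurd (Finset.mem_univ c) h
      omega

/-- The union theorem for submodular functions. -/
theorem union_partition (A : Finset ι) (r : C → Finset ι → ℕ) (h0 : ∀ c, r c ∅ = 0)
    (hmono : ∀ c, ∀ X ⊆ A, ∀ Y ⊆ X, r c Y ≤ r c X)
    (hsub : ∀ c, ∀ X ⊆ A, ∀ Y ⊆ A, r c (X ∪ Y) + r c (X ∩ Y) ≤ r c X + r c Y)
    (hX : ∀ X ⊆ A, X.card ≤ ∑ c, r c X) :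
    ∃ f : ι → C, ∀ c, ∀ X ⊆ A, (∀ i ∈ X, f i = c) → X.card ≤ r c X := by
  refine union_lists A r h0 hmono hsub _ (fun _ => Finset.univ) rfl (fun X hXA => ?_)
  have : ∀ c : C, X.filter (fun _ => c ∈ (Finset.univ : Finset C)) = X := fun c =>
    Finset.filter_true_of_mem (fun _ _ => Finset.mem_univ _)
  simp only [this]
  exact hX X hXA

end Union

/-! ### Lengths of finite subgroups -/

section Length

variable {G : Type*} [AddCommGroup G] {ι : Type*}

/-- The subgroup generated by the members of a family with index in `J`. -/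
def gen (a : ι → G) (J : Finset ι) : AddSubgroup G := AddSubgroup.closure (a '' (J : Set ι))

/-- The length of the subgroup generated by a subfamily. -/
noncomputable def lam (a : ι → G) (J : Finset ι) : ℕ := Ω (Nat.card (gen a J))

lemma mem_gen {a : ι → G} {J : Finset ι} {i : ι} (hi : i ∈ J) : a i ∈ gen a J :=
  AddSubgroup.subset_closure ⟨i, hi, rfl⟩

lemma gen_union [DecidableEq ι] (a : ι → G) (I J : Finset ι) : gen a (I ∪ J) = gen a I ⊔ gen a J := by
  unfold gen
  rw [Finset.coe_union, Set.image_union, AddSubgroup.closure_union]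

lemma gen_mono (a : ι → G) {I J : Finset ι} (h : I ⊆ J) : gen a I ≤ gen a J :=
  AddSubgroup.closure_mono (Set.image_mono (by exact_mod_cast h))

lemma gen_empty (a : ι → G) : gen a ∅ = ⊥ := by
  unfold gen
  simp

lemma gen_le_ker {a : ι → G} {J : Finset ι} {N : ℕ} (h : ∀ i ∈ J, N • a i = 0) {x : G}
    (hx : x ∈ gen a J) : N • x = 0 := by
  have h1 : gen a J ≤ (nsmulAddMonoidHom N : G →+ G).ker := by
    refine (AddSubgroup.closure_le _).2 ?_
    rintro _ ⟨i, hi, rfl⟩
    exact h i hi
  exact h1 hx

lemma finite_gen {a : ι → G} {J : Finset ι} {N : ℕ} (hN : 0 < N) (h : ∀ i ∈ J, N • a i = 0) :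
    Finite (gen a J) := by
  have : AddGroup.FG (gen a J) := by
    rw [AddGroup.fg_iff_addSubgroup_fg]
    classical
    exact ⟨J.image a, by rw [Finset.coe_image]; rfl⟩
  refine AddCommGroup.finite_of_fg_isAddTorsion (gen a J) ?_
  intro x
  rw [isOfFinAddOrder_iff_nsmul_eq_zero]
  refine ⟨N, hN, ?_⟩
  ext
  exact gen_le_ker h x.2

lemma omega_mono {m n : ℕ} (hn : n ≠ 0) (h : m ∣ n) : Ω m ≤ Ω n := by
  obtain ⟨k, rfl⟩ := h
  have hm : m ≠ 0 := fun e => hn (by rw [e, zero_mul])
  have hk : k ≠ 0 := fun e => hn (by rw [e, mul_zero])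
  rw [ArithmeticFunction.cardFactors_mul hm hk]
  exact Nat.le_add_right _ _

lemma card_mul_relIndex' {H K : AddSubgroup G} (h : H ≤ K) :
    Nat.card H * H.relIndex K = Nat.card K := by
  rw [← AddSubgroup.relIndex_bot_left, ← AddSubgroup.relIndex_bot_left]
  exact AddSubgroup.relIndex_mul_relIndex _ _ _ bot_le h

lemma card_ne_zero_of_finite (H : AddSubgroup G) [Finite H] : Nat.card H ≠ 0 :=
  Nat.card_pos.ne'

/-- The length in terms of the relative index. -/
lemma omega_card_eq {H K : AddSubgroup G} [Finite K] (h : H ≤ K) :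
    Ω (Nat.card K) = Ω (Nat.card H) + Ω (H.relIndex K) := by
  have h1 := card_mul_relIndex' h
  have h2 := card_ne_zero_of_finite K
  rw [← h1] at h2 ⊢
  exact ArithmeticFunction.cardFactors_mul (left_ne_zero_of_mul h2) (right_ne_zero_of_mul h2)

/-- The modular equality for lengths. -/
lemma omega_card_sup (H K : AddSubgroup G) [Finite H] [Finite K] [Finite (H ⊔ K : AddSubgroup G)] :
    Ω (Nat.card (H ⊔ K : AddSubgroup G)) + Ω (Nat.card (H ⊓ K : AddSubgroup G)) =
      Ω (Nat.card H) + Ω (Nat.card K) := by
  have h1 := omega_card_eq (H := H) (K := H ⊔ K) le_sup_left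
  have h2 := omega_card_eq (H := H ⊓ K) (K := K) inf_le_right
  rw [AddSubgroup.inf_relIndex_right] at h2
  rw [AddSubgroup.relIndex_sup_left] at h1
  omega

lemma lam_empty (a : ι → G) : lam a ∅ = 0 := by
  unfold lam
  rw [gen_empty]
  simp

lemma lam_mono {a : ι → G} {A : Finset ι} {N : ℕ} (hN : 0 < N) (h : ∀ i ∈ A, N • a i = 0)
    {X Y : Finset ι} (hX : X ⊆ A) (hY : Y ⊆ X) : lam a Y ≤ lam a X := by
  have := finite_gen (J := X) hN (fun i hi => h i (hX hi))
  refine omega_mono (card_ne_zero_of_finite _) ?_
  exact ⟨_, (card_mul_relIndex' (gen_mono a hY)).symm⟩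

lemma lam_submod [DecidableEq ι] {a : ι → G} {A : Finset ι} {N : ℕ} (hN : 0 < N) (h : ∀ i ∈ A, N • a i = 0)
    {X Y : Finset ι} (hX : X ⊆ A) (hY : Y ⊆ A) :
    lam a (X ∪ Y) + lam a (X ∩ Y) ≤ lam a X + lam a Y := by
  have := finite_gen (J := X) hN (fun i hi => h i (hX hi))
  have := finite_gen (J := Y) hN (fun i hi => h i (hY hi))
  have h3 := finite_gen (J := X ∪ Y) hN (fun i hi => h i (Finset.union_subset hX hY hi))
  unfold lam
  rw [gen_union] at h3 ⊢
  have h4 := omega_card_sup (gen a X) (gen a Y)
  have h5 : Ω (Nat.card (gen a (X ∩ Y))) ≤ Ω (Nat.card (gen a X ⊓ gen a Y : AddSubgroup G)) := by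
    have : Finite (gen a X ⊓ gen a Y : AddSubgroup G) :=
      Finite.of_injective (AddSubgroup.inclusion inf_le_left)
        (AddSubgroup.inclusion_injective _)
    refine omega_mono (card_ne_zero_of_finite _) ⟨_, (card_mul_relIndex' ?_).symm⟩
    exact le_inf (gen_mono a Finset.inter_subset_left) (gen_mono a Finset.inter_subset_right)
  omega

/-- Lengths in a quotient. -/
lemma lam_quot (a : ι → G) (K : AddSubgroup G) (X : Finset ι)
    [Finite (gen a X ⊔ K : AddSubgroup G)] :
    lam (fun i => QuotientAddGroup.mk' K (a i)) X + Ω (Nat.card K) =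
      Ω (Nat.card (gen a X ⊔ K : AddSubgroup G)) := by
  have h1 : gen (fun i => QuotientAddGroup.mk' K (a i)) X =
      (gen a X).map (QuotientAddGroup.mk' K) := by
    unfold gen
    rw [AddMonoidHom.map_closure, Set.image_image]
  have h2 : Nat.card (gen (fun i => QuotientAddGroup.mk' K (a i)) X) = K.relIndex (gen a X) := by
    rw [h1, ← AddSubgroup.relIndex_ker, QuotientAddGroup.ker_mk']
  unfold lam
  rw [h2, omega_card_eq (H := K) (K := gen a X ⊔ K) le_sup_right, AddSubgroup.relIndex_sup_right]
  exact add_comm _ _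

end Length

/-! ### Families without relations with coefficients -1, 0, 1 -/

section QI

/-- The subfamily with index in `S` has no nontrivial relation with coefficients `-1, 0, 1`. -/
def QI {G ι : Type*} [AddCommGroup G] (a : ι → G) (S : Finset ι) : Prop :=
  ∀ ε : ι → ℤ, (∀ i ∈ S, ε i = -1 ∨ ε i = 0 ∨ ε i = 1) → ∑ i ∈ S, ε i • a i = 0 →
    ∀ i ∈ S, ε i = 0

/-- Each family of elements of order dividing `N` for which `|J| ≤ lam a J` always can be coloured
by `C` so that each class has no relation. -/
def Splits.{u} (ι : Type u) (N : ℕ) (C : Type) : Prop :=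
  ∀ (G : Type u) [AddCommGroup G] (a : ι → G) (A : Finset ι), (∀ i ∈ A, N • a i = 0) →
    (∀ J ⊆ A, J.card ≤ lam a J) →
      ∃ f : ι → C, ∀ c, ∀ S ⊆ A, (∀ i ∈ S, f i = c) → QI a S

lemma QI.mono {G ι : Type*} [AddCommGroup G] {a : ι → G} {S T : Finset ι} (h : QI a T)
    (hST : S ⊆ T) : QI a S := by
  classical
  intro ε hε hs i hi
  have h1 := h (fun j => if j ∈ S then ε j else 0) (fun j _ => by
    by_cases hj : j ∈ S
    · simpa only [if_pos hj] using hε j hj
    · simp [if_neg hj]) ?_ i (hST hi)
  · simpa [hi] using h1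
  · rw [← hs, ← Finset.sum_subset hST]
    · refine Finset.sum_congr rfl (fun j hj => ?_)
      simp only [if_pos hj]
    · intro j _ hj
      simp only [if_neg hj, zero_smul]

lemma sum_mem_gen {G ι : Type*} [AddCommGroup G] (a : ι → G) (ε : ι → ℤ) {S J : Finset ι}
    (h : S ⊆ J) : ∑ i ∈ S, ε i • a i ∈ gen a J :=
  AddSubgroup.sum_mem _ (fun _ hi => AddSubgroup.zsmul_mem _ (mem_gen (h hi)) _)

/-- The length grows by at most one when an element of prime order is added. -/
lemma lam_insert_le {G ι : Type*} [AddCommGroup G] [DecidableEq ι] {a : ι → G} {p : ℕ}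
    (hp : p.Prime) {J : Finset ι} {i : ι} (h : ∀ j ∈ insert i J, p • a j = 0) :
    lam a (insert i J) ≤ lam a J + 1 := by
  have hfin := finite_gen hp.pos h
  have hfi : Finite (gen a {i}) := finite_gen hp.pos (fun j hj => h j (by
    rw [Finset.mem_singleton.1 hj]
    exact Finset.mem_insert_self _ _))
  have hfJ : Finite (gen a J) := finite_gen hp.pos (fun j hj => h j (Finset.mem_insert_of_mem hj))
  have e : gen a (insert i J) = gen a {i} ⊔ gen a J := by
    rw [← gen_union]
    rfl
  unfold lam
  rw [e] at hfin ⊢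
  have h1 := omega_card_sup (gen a {i}) (gen a J)
  have h2 : Ω (Nat.card (gen a {i})) ≤ 1 := by
    rw [← ArithmeticFunction.cardFactors_apply_prime hp]
    refine omega_mono hp.ne_zero ?_
    have h3 : gen a {i} = AddSubgroup.zmultiples (a i) := by
      unfold gen
      rw [Finset.coe_singleton, Set.image_singleton, AddSubgroup.zmultiples_eq_closure]
    rw [h3, Nat.card_zmultiples]
    exact addOrderOf_dvd_of_nsmul_eq_zero (h i (Finset.mem_insert_self _ _))
  omega

lemma lam_le_card {G ι : Type*} [AddCommGroup G] [DecidableEq ι] {a : ι → G} {p : ℕ}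
    (hp : p.Prime) {J : Finset ι} (h : ∀ j ∈ J, p • a j = 0) : lam a J ≤ J.card := by
  induction J using Finset.induction_on with
  | empty => rw [lam_empty]; exact Nat.zero_le _
  | insert i J hi ih =>
    have h1 := lam_insert_le hp h
    have h2 := ih (fun j hj => h j (Finset.mem_insert_of_mem hj))
    rw [Finset.card_insert_of_notMem hi]
    omega

/-- For prime exponent one class suffices. -/
theorem splits_prime {ι : Type*} {p : ℕ} (hp : p.Prime) : Splits ι p Unit := by
  classical
  intro G _ a A hA hJ
  refine ⟨fun _ => (), fun _ S hS _ => ?_⟩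
  intro ε hε hs i hi
  by_contra hne
  set X := S.filter (fun j => ε j ≠ 0) with hX
  have hiX : i ∈ X := Finset.mem_filter.2 ⟨hi, hne⟩
  have hXS : X ⊆ S := Finset.filter_subset _ _
  have hsX : ∑ j ∈ X, ε j • a j = 0 := by
    rw [← hs]
    refine Finset.sum_subset hXS (fun j hj hjX => ?_)
    have : ε j = 0 := by
      by_contra h
      exact hjX (Finset.mem_filter.2 ⟨hj, h⟩)
    rw [this, zero_smul]
  have hmem : a i ∈ gen a (X.erase i) := by
    rw [← Finset.add_sum_erase X _ hiX] at hsX
    have h1 : ε i • a i ∈ gen a (X.erase i) := by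
      rw [eq_neg_of_add_eq_zero_left hsX]
      exact AddSubgroup.neg_mem _ (sum_mem_gen a ε (le_refl _))
    rcases hε i hi with h | h | h
    · rw [h] at h1
      simpa using h1
    · exact absurd h hne
    · rw [h] at h1
      simpa using h1
  have hgen : gen a X = gen a (X.erase i) := by
    refine le_antisymm ?_ (gen_mono a (Finset.erase_subset _ _))
    refine (AddSubgroup.closure_le _).2 ?_
    rintro _ ⟨j, hj, rfl⟩
    by_cases hji : j = i
    · rw [hji]
      exact hmem
    · exact mem_gen (Finset.mem_erase.2 ⟨hji, hj⟩)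
  have h1 : X.card ≤ lam a X := hJ X (hXS.trans hS)
  have h2 : lam a X = lam a (X.erase i) := by
    unfold lam
    rw [hgen]
  have h3 : lam a (X.erase i) ≤ (X.erase i).card :=
    lam_le_card hp (fun j hj => hA j (hS (hXS (Finset.mem_of_mem_erase hj))))
  have h4 : (X.erase i).card + 1 = X.card := Finset.card_erase_add_one hiX
  omega

/-- Gluing along a homomorphism which kills the members with index in `J`. -/
lemma QI_glue {G G' ι : Type*} [AddCommGroup G] [AddCommGroup G'] [DecidableEq ι] {a : ι → G}
    (φ : G →+ G') {S J : Finset ι} (h1 : QI a (S.filter (fun i => i ∈ J)))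
    (h2 : QI (fun i => φ (a i)) (S.filter (fun i => i ∉ J))) (hφ : ∀ i ∈ J, φ (a i) = 0) :
    QI a S := by
  intro ε hε hs
  have h3 : ∀ i ∈ S.filter (fun i => i ∉ J), ε i = 0 := by
    refine h2 ε (fun i hi => hε i (Finset.mem_of_mem_filter i hi)) ?_
    have h4 : ∑ i ∈ S, ε i • φ (a i) = 0 := by
      have := congrArg φ hs
      rw [map_sum, map_zero] at this
      rw [← this]
      exact Finset.sum_congr rfl (fun i _ => (map_zsmul φ _ _).symm)
    rw [← Finset.sum_filter_add_sum_filter_not S (fun i => i ∈ J),
      Finset.sum_eq_zero (s := S.filter (fun i => i ∈ J)), zero_add] at h4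
    · exact h4
    · intro i hi
      rw [hφ i (Finset.mem_filter.1 hi).2, smul_zero]
  have h5 : ∀ i ∈ S.filter (fun i => i ∈ J), ε i = 0 := by
    refine h1 ε (fun i hi => hε i (Finset.mem_of_mem_filter i hi)) ?_
    rw [← Finset.sum_filter_add_sum_filter_not S (fun i => i ∈ J),
      Finset.sum_eq_zero (s := S.filter (fun i => i ∉ J)), add_zero] at hs
    · exact hs
    · intro i hi
      rw [h3 i hi, zero_smul]
  intro i hi
  by_cases hiJ : i ∈ J
  · exact h5 i (Finset.mem_filter.2 ⟨hi, hiJ⟩)
  · exact h3 i (Finset.mem_filter.2 ⟨hi, hiJ⟩)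

/-- The main step: the numbers of classes for two exponents add up. -/
theorem splits_mul.{u} {ι : Type u} {M N : ℕ} {C D : Type} [Nonempty C] (hM : 0 < M) (hN : 0 < N)
    (h1 : Splits ι M C) (h2 : Splits ι N D) : Splits ι (M * N) (C ⊕ D) := by
  classical
  intro G _ a A
  induction A using Finset.strongInduction with
  | H A ih =>
    intro hA hJ
    have hMN : 0 < M * N := Nat.mul_pos hM hN
    rcases A.eq_empty_or_nonempty with hemp | hne
    · obtain ⟨c₀⟩ := ‹Nonempty C›
      refine ⟨fun _ => Sum.inl c₀, fun c S hS _ => ?_⟩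
      rw [hemp] at hS
      rw [Finset.subset_empty.1 hS]
      intro ε _ _ i hi
      exact absurd hi (Finset.notMem_empty _)
    · set a' : ι → G := fun i => M • a i with ha'
      have hA' : ∀ i ∈ A, N • a' i = 0 := by
        intro i hi
        rw [ha', ← mul_smul, mul_comm]
        exact hA i hi
      set H' : AddSubgroup G := gen a' A with hH'
      have hH'le : H' ≤ gen a A := by
        refine (AddSubgroup.closure_le _).2 ?_
        rintro _ ⟨i, hi, rfl⟩
        exact AddSubgroup.nsmul_mem _ (mem_gen hi) _
      set u : Finset ι → ℕ := fun J =>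
        Ω (Nat.card (gen a J ⊔ H' : AddSubgroup G)) + lam a' J with hu
      -- the choice of the deficient subset
      obtain ⟨J, hJA, hJmin⟩ : ∃ J : Finset ι, J ⊂ A ∧
          ∀ X ⊆ A, u J + X.card ≤ u X + J.card := by
        obtain ⟨J₀, hJ₀, hmin⟩ := Finset.exists_min_image A.powerset
          (fun X => ((u X : ℤ) - X.card)) ⟨∅, Finset.empty_mem_powerset _⟩
        have hmin' : ∀ X ⊆ A, u J₀ + X.card ≤ u X + J₀.card := by
          intro X hX
          have := hmin X (Finset.mem_powerset.2 hX)
          omega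
        by_cases hJA : J₀ = A
        · refine ⟨∅, Finset.empty_ssubset.2 hne, fun X hX => ?_⟩
          have h3 := hmin' X hX
          have h4 := hJ A (le_refl _)
          have h5 : u ∅ = lam a' A := by
            simp only [hu]
            rw [lam_empty, gen_empty, bot_sup_eq]
            rfl
          have h6 : u A = lam a A + lam a' A := by
            simp only [hu]
            rw [sup_eq_left.2 hH'le]
            rfl
          rw [hJA] at h3
          rw [Finset.card_empty]
          omega
        · exact ⟨J₀, lt_of_le_of_ne (Finset.mem_powerset.1 hJ₀) hJA, hmin'⟩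
      have hJA' : J ⊆ A := hJA.1
      set K : AddSubgroup G := gen a J ⊔ H' with hK
      set K' : AddSubgroup G := gen a' J with hK'
      set b : ι → G ⧸ K := fun i => QuotientAddGroup.mk' K (a i) with hb
      set b' : ι → G ⧸ K' := fun i => QuotientAddGroup.mk' K' (a' i) with hb'
      have hbA : ∀ i ∈ A, M • b i = 0 := by
        intro i hi
        rw [hb]
        simp only
        rw [← map_nsmul, QuotientAddGroup.mk'_apply, QuotientAddGroup.eq_zero_iff]
        exact AddSubgroup.mem_sup_right (mem_gen (a := a') hi)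
      have hb'A : ∀ i ∈ A, N • b' i = 0 := by
        intro i hi
        rw [hb']
        simp only
        rw [← map_nsmul, hA' i hi, map_zero]
      have hfinA : ∀ X ⊆ A, Finite (gen a X) := fun X hX =>
        finite_gen hMN (fun i hi => hA i (hX hi))
      have hfinA' : ∀ X ⊆ A, Finite (gen a' X) := fun X hX =>
        finite_gen hN (fun i hi => hA' i (hX hi))
      have hkey : ∀ X ⊆ A \ J, X.card ≤ lam b X + lam b' X := by
        intro X hX
        have hXA : X ⊆ A := hX.trans Finset.sdiff_subset
        have hdisj : Disjoint X J := Finset.disjoint_left.2 (fun i hi hiJ =>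
          (Finset.mem_sdiff.1 (hX hi)).2 hiJ)
        have hXJ : X ∪ J ⊆ A := Finset.union_subset hXA hJA'
        have e1 : gen a X ⊔ K = gen a (X ∪ J) ⊔ H' := by
          rw [hK, gen_union, sup_assoc]
        have e2 : gen a' X ⊔ K' = gen a' (X ∪ J) := by
          rw [hK', gen_union]
        have f1 : Finite (gen a X ⊔ K : AddSubgroup G) := by
          rw [e1]
          have := hfinA A (le_refl _)
          exact Finite.of_injective
            (AddSubgroup.inclusion (sup_le (gen_mono a hXJ) hH'le : gen a (X ∪ J) ⊔ H' ≤ gen a A))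
            (AddSubgroup.inclusion_injective _)
        have f2 : Finite (gen a' X ⊔ K' : AddSubgroup G) := by
          rw [e2]
          exact hfinA' _ hXJ
        have h3 := lam_quot a K X
        have h4 := lam_quot a' K' X
        rw [e1] at h3
        rw [e2] at h4
        have h5 := hJmin (X ∪ J) hXJ
        have h6 : (X ∪ J).card = X.card + J.card := Finset.card_union_of_disjoint hdisj
        have h7 : u J = Ω (Nat.card K) + Ω (Nat.card K') := rfl
        have h8 : u (X ∪ J) = Ω (Nat.card (gen a (X ∪ J) ⊔ H' : AddSubgroup G)) +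
          Ω (Nat.card (gen a' (X ∪ J))) := rfl
        have h9 : lam b X = lam (fun i => QuotientAddGroup.mk' K (a i)) X := rfl
        have h10 : lam b' X = lam (fun i => QuotientAddGroup.mk' K' (a' i)) X := rfl
        omega
      -- the two parts
      obtain ⟨g, hg⟩ := union_partition (C := Bool) (A \ J)
        (fun c => if c = true then lam b else lam b') (fun c => by
          by_cases hc : c = true
          · simp only [if_pos hc, lam_empty]
          · simp only [if_neg hc, lam_empty]) (fun c X hX Y hY => by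
          by_cases hc : c = true
          · simp only [if_pos hc]
            exact lam_mono hM (A := A) hbA (hX.trans Finset.sdiff_subset) hY
          · simp only [if_neg hc]
            exact lam_mono hN (A := A) hb'A (hX.trans Finset.sdiff_subset) hY) (fun c X hX Y hY => by
          by_cases hc : c = true
          · simp only [if_pos hc]
            exact lam_submod hM (A := A) hbA (hX.trans Finset.sdiff_subset)
              (hY.trans Finset.sdiff_subset)
          · simp only [if_neg hc]
            exact lam_submod hN (A := A) hb'A (hX.trans Finset.sdiff_subset)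
              (hY.trans Finset.sdiff_subset)) (fun X hX => by
          have := hkey X hX
          simpa using this)
      obtain ⟨f₁, hf₁⟩ := h1 (G ⧸ K) b ((A \ J).filter (fun i => g i = true))
        (fun i hi => hbA i (Finset.mem_sdiff.1 (Finset.mem_filter.1 hi).1).1)
        (fun X hX => by
          have := hg true X (hX.trans (Finset.filter_subset _ _))
            (fun i hi => (Finset.mem_filter.1 (hX hi)).2)
          simpa using this)
      obtain ⟨f₂, hf₂⟩ := h2 (G ⧸ K') b' ((A \ J).filter (fun i => g i = false))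
        (fun i hi => hb'A i (Finset.mem_sdiff.1 (Finset.mem_filter.1 hi).1).1)
        (fun X hX => by
          have := hg false X (hX.trans (Finset.filter_subset _ _))
            (fun i hi => (Finset.mem_filter.1 (hX hi)).2)
          simpa using this)
      obtain ⟨f₃, hf₃⟩ := ih J hJA (fun i hi => hA i (hJA' hi)) (fun X hX => hJ X (hX.trans hJA'))
      refine ⟨fun i => if i ∈ J then f₃ i else if g i = true then Sum.inl (f₁ i)
        else Sum.inr (f₂ i), fun c S hS hSc₀ => ?_⟩
      have hSc : ∀ i ∈ S, (if i ∈ J then f₃ i else if g i = true then Sum.inl (f₁ i)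
        else Sum.inr (f₂ i)) = c := hSc₀
      clear hSc₀
      have hQ1 : QI a (S.filter (fun i => i ∈ J)) := by
        refine hf₃ c _ (fun i hi => (Finset.mem_filter.1 hi).2) (fun i hi => ?_)
        obtain ⟨hiS, hiJ⟩ := Finset.mem_filter.1 hi
        have := hSc i hiS
        rwa [if_pos hiJ] at this
      rcases c with c₁ | c₂
      · refine QI_glue (QuotientAddGroup.mk' K) hQ1 ?_ (fun i hi => ?_)
        · have hmem : ∀ i ∈ S.filter (fun i => i ∉ J), g i = true ∧ f₁ i = c₁ := by
            intro i hi
            obtain ⟨hiS, hiJ⟩ := Finset.mem_filter.1 hi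
            have h3 := hSc i hiS
            rw [if_neg hiJ] at h3
            by_cases hgi : g i = true
            · rw [if_pos hgi] at h3
              exact ⟨hgi, Sum.inl.inj h3⟩
            · rw [if_neg hgi] at h3
              exact absurd h3 (by simp)
          refine hf₁ c₁ _ (fun i hi => ?_) (fun i hi => (hmem i hi).2)
          obtain ⟨hiS, hiJ⟩ := Finset.mem_filter.1 hi
          exact Finset.mem_filter.2 ⟨Finset.mem_sdiff.2 ⟨hS hiS, hiJ⟩, (hmem i hi).1⟩
        · rw [QuotientAddGroup.mk'_apply, QuotientAddGroup.eq_zero_iff]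
          exact AddSubgroup.mem_sup_left (mem_gen hi)
      · refine QI_glue ((QuotientAddGroup.mk' K').comp (nsmulAddMonoidHom M)) hQ1 ?_
          (fun i hi => ?_)
        · have hmem : ∀ i ∈ S.filter (fun i => i ∉ J), g i = false ∧ f₂ i = c₂ := by
            intro i hi
            obtain ⟨hiS, hiJ⟩ := Finset.mem_filter.1 hi
            have h3 := hSc i hiS
            rw [if_neg hiJ] at h3
            by_cases hgi : g i = true
            · rw [if_pos hgi] at h3
              exact absurd h3 (by simp)
            · rw [if_neg hgi] at h3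
              exact ⟨by simpa using hgi, Sum.inr.inj h3⟩
          refine hf₂ c₂ _ (fun i hi => ?_) (fun i hi => (hmem i hi).2)
          obtain ⟨hiS, hiJ⟩ := Finset.mem_filter.1 hi
          exact Finset.mem_filter.2 ⟨Finset.mem_sdiff.2 ⟨hS hiS, hiJ⟩, (hmem i hi).1⟩
        · rw [AddMonoidHom.comp_apply, QuotientAddGroup.mk'_apply, QuotientAddGroup.eq_zero_iff]
          exact mem_gen (a := a') hi

end QI

/-! ### The number of classes for a general exponent -/

section Exponent

lemma Splits.of_injective.{u} {ι : Type u} {N : ℕ} {C D : Type} (h : Splits ι N C) (e : C → D)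
    (he : Function.Injective e) : Splits ι N D := by
  intro G _ a A hA hJ
  obtain ⟨f, hf⟩ := h G a A hA hJ
  refine ⟨fun i => e (f i), fun d S hS hSd => ?_⟩
  rcases S.eq_empty_or_nonempty with hemp | ⟨i₀, hi₀⟩
  · rw [hemp]
    intro ε _ _ i hi
    exact absurd hi (Finset.notMem_empty _)
  · exact hf (f i₀) S hS (fun i hi => he ((hSd i hi).trans (hSd i₀ hi₀).symm))

/-- The number of classes is at most the number of prime factors of the exponent. -/
theorem splits_omega {ι : Type*} : ∀ N : ℕ, 2 ≤ N → Splits ι N (Fin (Ω N)) := by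
  intro N
  induction N using Nat.strong_induction_on with
  | _ N ih =>
    intro hN
    have hp : (Nat.minFac N).Prime := Nat.minFac_prime (by omega)
    obtain ⟨m, hm⟩ := Nat.minFac_dvd N
    set p := Nat.minFac N with hpdef
    have hm0 : m ≠ 0 := by
      intro h
      rw [h, mul_zero] at hm
      omega
    have hΩ : Ω N = 1 + Ω m := by
      rw [hm, ArithmeticFunction.cardFactors_mul hp.ne_zero hm0,
        ArithmeticFunction.cardFactors_apply_prime hp]
    by_cases hm1 : m = 1
    · have hNp : N = p := by rw [hm, hm1, mul_one]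
      have h1 : Splits ι N Unit := by
        rw [hNp]
        exact splits_prime hp
      refine h1.of_injective (fun _ => ⟨0, by omega⟩) (fun _ _ _ => rfl)
    · have hm2 : 2 ≤ m := by omega
      have hlt : m < N := by
        rw [hm]
        have := hp.two_le
        nlinarith
      have h1 := ih m hlt hm2
      have h2 : Splits ι (p * m) (Unit ⊕ Fin (Ω m)) :=
        splits_mul hp.pos (by omega) (splits_prime hp) h1
      rw [← hm] at h2
      rw [hΩ]
      have hc : Fintype.card (Unit ⊕ Fin (Ω m)) = 1 + Ω m := by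
        rw [Fintype.card_sum, Fintype.card_unit, Fintype.card_fin]
      exact h2.of_injective (Fintype.equivFinOfCardEq hc) (Equiv.injective _)

lemma card_le_pow_omega {G : Type*} [AddCommGroup G] {H : AddSubgroup G} [Finite H] {N P : ℕ}
    (hP : ∀ p : ℕ, p.Prime → p ∣ N → p ≤ P) (h : ∀ x ∈ H, N • x = 0) :
    Nat.card H ≤ P ^ Ω (Nat.card H) := by
  have h0 : Nat.card H ≠ 0 := card_ne_zero_of_finite H
  have h1 : ∀ p ∈ (Nat.card H).primeFactorsList, p ≤ P := by
    intro p hp
    have hpp : p.Prime := Nat.prime_of_mem_primeFactorsList hp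
    have hpd : p ∣ Nat.card H := Nat.dvd_of_mem_primeFactorsList hp
    have : Fact p.Prime := ⟨hpp⟩
    obtain ⟨x, hx⟩ := exists_prime_addOrderOf_dvd_card' p hpd
    refine hP p hpp ?_
    rw [← hx]
    refine addOrderOf_dvd_of_nsmul_eq_zero ?_
    ext
    exact h x x.2
  calc Nat.card H = (Nat.card H).primeFactorsList.prod := (Nat.prod_primeFactorsList h0).symm
    _ ≤ P ^ (Nat.card H).primeFactorsList.length := List.prod_le_pow_card _ _ h1
    _ = P ^ Ω (Nat.card H) := by rw [ArithmeticFunction.cardFactors_apply]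

/-- A family without relations is small compared with the subgroup it generates. -/
lemma two_pow_le_card {G ι : Type*} [AddCommGroup G] {a : ι → G} {B : Finset ι} {N : ℕ}
    (hN : 0 < N) (hB : ∀ i ∈ B, N • a i = 0) (h : QI a B) :
    2 ^ B.card ≤ Nat.card (gen a B) := by
  classical
  have hfin := finite_gen hN hB
  have hinj : Function.Injective (fun T : ↥B.powerset =>
      (⟨∑ i ∈ (T : Finset ι), (1 : ℤ) • a i,
        sum_mem_gen a (fun _ => 1) (Finset.mem_powerset.1 T.2)⟩ : gen a B)) := by
    rintro ⟨T, hT⟩ ⟨T', hT'⟩ hTT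
    have hTB := Finset.mem_powerset.1 hT
    have hTB' := Finset.mem_powerset.1 hT'
    have hs : ∑ i ∈ T, (1 : ℤ) • a i = ∑ i ∈ T', (1 : ℤ) • a i := congrArg Subtype.val hTT
    have h1 := h (fun i => (if i ∈ T then 1 else 0) - (if i ∈ T' then 1 else 0)) (fun i _ => by
      by_cases h1 : i ∈ T <;> by_cases h2 : i ∈ T' <;> simp [h1, h2]) (by
      simp only [sub_smul, Finset.sum_sub_distrib]
      have e1 : ∀ U : Finset ι, U ⊆ B → ∑ i ∈ B, (if i ∈ U then (1 : ℤ) else 0) • a i =
          ∑ i ∈ U, (1 : ℤ) • a i := by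
        intro U hU
        rw [← Finset.sum_subset hU]
        · exact Finset.sum_congr rfl (fun i hi => by rw [if_pos hi])
        · intro i _ hi
          rw [if_neg hi, zero_smul]
      rw [e1 T hTB, e1 T' hTB', hs, sub_self])
    refine Subtype.ext ?_
    show T = T'
    ext i
    constructor
    · intro hi
      by_contra hi'
      have := h1 i (hTB hi)
      simp [hi, hi'] at this
    · intro hi
      by_contra hi'
      have := h1 i (hTB' hi)
      simp [hi, hi'] at this
  have h2 := Nat.card_le_card_of_injective _ hinj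
  rwa [Nat.card_eq_fintype_card, Fintype.card_coe, Finset.card_powerset] at h2

end Exponent

/-! ### The union theorem -/

section Main

/-- `B` is quasi-independent: a sum of distinct elements of `B` with coefficients `1` and `-1` is
never zero, apart from the empty sum. -/
def QuasiIndependent {G : Type*} [AddCommGroup G] (B : Set G) : Prop :=
  ∀ F : Finset G, (F : Set G) ⊆ B → ∀ ε : G → ℤ, (∀ x ∈ F, ε x = -1 ∨ ε x = 0 ∨ ε x = 1) →
    ∑ x ∈ F, ε x • x = 0 → ∀ x ∈ F, ε x = 0

/-- The map `φ` sends the relations with coefficients `-1, 0, 1` between elements of `Λ` to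
relations. -/
def PreservesRelations {G H : Type*} [AddCommGroup G] [AddCommGroup H] (φ : G → H)
    (Λ : Set G) : Prop :=
  ∀ F : Finset G, (F : Set G) ⊆ Λ → ∀ ε : G → ℤ, (∀ x ∈ F, ε x = -1 ∨ ε x = 0 ∨ ε x = 1) →
    ∑ x ∈ F, ε x • x = 0 → ∑ x ∈ F, ε x • φ x = 0

/-- Every finite subset of `Λ` has a subset of proportion `δ` on which the values of `φ` have no
nontrivial relation with coefficients `-1, 0, 1`. -/
def ProportionalVia {G H : Type*} [AddCommGroup G] [AddCommGroup H] (φ : G → H) (δ : ℝ)
    (Λ : Set G) : Prop :=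
  ∀ A : Finset G, (A : Set G) ⊆ Λ → ∃ B : Finset G, B ⊆ A ∧
    (∀ ε : G → ℤ, (∀ x ∈ B, ε x = -1 ∨ ε x = 0 ∨ ε x = 1) → ∑ x ∈ B, ε x • φ x = 0 →
      ∀ x ∈ B, ε x = 0) ∧ δ * (A.card : ℝ) ≤ (B.card : ℝ)

/-- The size bound. -/
lemma card_le_mul_lam {N P : ℕ} (hN : 2 ≤ N) (hP : ∀ p : ℕ, p.Prime → p ∣ N → p ≤ P) {δ : ℝ}
    (hδ : 0 < δ) {G H : Type*} [AddCommGroup G] [AddCommGroup H] (hH : ∀ h : H, N • h = 0)
    {Λ : Set G} {φ : G → H} (hprop : ProportionalVia φ δ Λ) (J : Finset G) (hJ : (J : Set G) ⊆ Λ) :
    J.card ≤ ⌈Real.logb 2 P / δ⌉₊ * lam φ J := by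
  have hN0 : 0 < N := by omega
  have hP2 : 2 ≤ P := (Nat.minFac_prime (by omega : N ≠ 1)).two_le.trans
    (hP _ (Nat.minFac_prime (by omega)) (Nat.minFac_dvd N))
  obtain ⟨B, hBJ, hB, hBc⟩ := hprop J hJ
  have h1 : 2 ^ B.card ≤ Nat.card (gen φ B) := two_pow_le_card hN0 (fun x _ => hH _) hB
  have hfin := finite_gen (a := φ) (J := B) hN0 (fun x _ => hH _)
  have h2 : Nat.card (gen φ B) ≤ P ^ lam φ B :=
    card_le_pow_omega hP (fun x _ => hH _)
  have h3 : lam φ B ≤ lam φ J := lam_mono hN0 (A := J) (fun x _ => hH _) (le_refl _) hBJ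
  have h4 : (2 : ℝ) ^ B.card ≤ (P : ℝ) ^ lam φ J := by
    have : 2 ^ B.card ≤ P ^ lam φ J :=
      (h1.trans h2).trans (Nat.pow_le_pow_right (by omega) h3)
    exact_mod_cast this
  have hPR : (0 : ℝ) < P := by
    have : 0 < P := by omega
    exact_mod_cast this
  have h5 : (B.card : ℝ) ≤ Real.logb 2 P * lam φ J := by
    have h6 := Real.logb_le_logb_of_le (b := 2) (by norm_num) (by positivity) h4
    rw [Real.logb_pow, Real.logb_pow, Real.logb_self_eq_one (by norm_num), mul_one] at h6
    linarith [mul_comm (lam φ J : ℝ) (Real.logb 2 P)]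
  have h7 : (J.card : ℝ) ≤ Real.logb 2 P / δ * lam φ J := by
    rw [div_mul_eq_mul_div, le_div_iff₀ hδ]
    linarith
  have h8 : (J.card : ℝ) ≤ (⌈Real.logb 2 P / δ⌉₊ : ℝ) * lam φ J :=
    h7.trans (mul_le_mul_of_nonneg_right (Nat.le_ceil _) (Nat.cast_nonneg _))
  exact_mod_cast h8

/-- The union theorem for maps to groups of exponent `N`. -/
theorem main.{u} {N P : ℕ} (hN : 2 ≤ N) (hP : ∀ p : ℕ, p.Prime → p ∣ N → p ≤ P) {δ : ℝ}
    (hδ : 0 < δ) {G H : Type u} [AddCommGroup G] [AddCommGroup H] (hH : ∀ h : H, N • h = 0)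
    (Λ : Set G) (φ : G → H) (hφ : PreservesRelations φ Λ) (hprop : ProportionalVia φ δ Λ) :
    ∃ T : Fin (⌈Real.logb 2 P / δ⌉₊ * Ω N) → Set G, (∀ i, QuasiIndependent (T i)) ∧
      Λ = ⋃ i, T i := by
  classical
  have hN0 : 0 < N := by omega
  have hP2 : 2 ≤ P := (Nat.minFac_prime (by omega : N ≠ 1)).two_le.trans
    (hP _ (Nat.minFac_prime (by omega)) (Nat.minFac_dvd N))
  set K := ⌈Real.logb 2 P / δ⌉₊ with hK
  have hK0 : 0 < K := by
    rw [hK, Nat.ceil_pos]
    refine div_pos (Real.logb_pos (by norm_num) ?_) hδ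
    have : 1 < P := by omega
    exact_mod_cast this
  have : Nonempty (Fin K) := ⟨⟨0, hK0⟩⟩
  have hsize := card_le_mul_lam hN hP hδ hH hprop
  rw [← hK] at hsize
  -- finite subsets
  have hfinite : ∀ t : Finset G, ∃ χ : G → Fin (K * Ω N), ∀ c, ∀ S : Finset G, S ⊆ t →
      (S : Set G) ⊆ Λ → (∀ x ∈ S, χ x = c) → QI φ S := by
    intro t
    set A := t.filter (fun x => x ∈ Λ) with hA
    have hAΛ : (A : Set G) ⊆ Λ := fun x hx => (Finset.mem_filter.1 (Finset.mem_coe.1 hx)).2
    obtain ⟨g, hg⟩ := union_partition (C := Fin K) A (fun _ => lam φ) (fun _ => lam_empty φ)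
      (fun _ X hX Y hY => lam_mono hN0 (A := A) (fun x _ => hH _) hX hY)
      (fun _ X hX Y hY => lam_submod hN0 (A := A) (fun x _ => hH _) hX hY)
      (fun X hX => by
        rw [Finset.sum_const, Finset.card_univ, Fintype.card_fin, smul_eq_mul]
        exact hsize X (fun x hx => hAΛ (hX hx)))
    have hsp : ∀ c : Fin K, ∃ f : G → Fin (Ω N), ∀ d, ∀ S ⊆ A.filter (fun x => g x = c),
        (∀ x ∈ S, f x = d) → QI φ S := fun c =>
      splits_omega N hN H φ (A.filter (fun x => g x = c)) (fun x _ => hH _)
        (fun J hJ => hg c J (hJ.trans (Finset.filter_subset _ _))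
          (fun x hx => (Finset.mem_filter.1 (hJ hx)).2))
    choose f hf using hsp
    refine ⟨fun x => finProdFinEquiv (g x, f (g x) x), fun c S hSt hSΛ hSc => ?_⟩
    have hSc' : ∀ x ∈ S, (g x, f (g x) x) = finProdFinEquiv.symm c := by
      intro x hx
      rw [← hSc x hx, Equiv.symm_apply_apply]
    refine hf (finProdFinEquiv.symm c).1 (finProdFinEquiv.symm c).2 S (fun x hx => ?_)
      (fun x hx => ?_)
    · refine Finset.mem_filter.2 ⟨Finset.mem_filter.2 ⟨hSt hx, hSΛ hx⟩, ?_⟩
      exact congrArg Prod.fst (hSc' x hx)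
    · have h1 := hSc' x hx
      have h2 : g x = (finProdFinEquiv.symm c).1 := congrArg Prod.fst h1
      have h3 : f (g x) x = (finProdFinEquiv.symm c).2 := congrArg Prod.snd h1
      rwa [h2] at h3
  choose χ' hχ' using hfinite
  obtain ⟨χ, hχ⟩ := Finset.rado_selection χ'
  refine ⟨fun i => {x | x ∈ Λ ∧ χ x = i}, fun i F hF ε hε hs => ?_, ?_⟩
  · obtain ⟨t, hst, ht⟩ := hχ F
    refine hχ' t i F hst (fun x hx => (hF hx).1) (fun x hx => ?_) ε hε
      (hφ F (fun x hx => (hF hx).1) ε hε hs)
    rw [← ht x hx]
    exact (hF (Finset.mem_coe.2 hx)).2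
  · ext x
    simp

end Main

end Pool.Agent.Helper97.BddExp
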